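import Pool.Agent.Helper42.KS.Goals

set_option autoImplicit false

namespace Pool.Agent.Helper42.KS.PkLOW

open MeasureTheory Set

theorem aux (K s N M : ℝ) (hK : 0 ≤ K) (hs : 1 < s) (hN : 0 ≤ N) (hNM : N ≤ M) :
    ∫ x in Ioc N M, K * (1 + |x|) ^ (-s) ≤ K * ((1 + N) ^ (1 - s) / (s - 1)) := by
  rw [← intervalIntegral.integral_of_le hNM]
  have h1 : ∫ x in N..M, K * (1 + |x|) ^ (-s) = ∫ x in N..M, K * (1 + x) ^ (-s) := by
    apply intervalIntegral.integral_congr
    intro x hx
    rw [uIcc_of_le hNM] at hx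
    have : |x| = x := abs_of_nonneg (hN.trans hx.1)
    simp only [this]
  rw [h1, intervalIntegral.integral_const_mul]
  have h2 : ∫ x in N..M, (1 + x) ^ (-s) = ∫ x in (1 + N)..(1 + M), x ^ (-s) := by
    have := intervalIntegral.integral_comp_add_left (a := N) (b := M) (fun x => x ^ (-s)) 1
    simpa using this
  rw [h2, integral_rpow]
  · apply mul_le_mul_of_nonneg_left _ hK
    have h3 : (0 : ℝ) ≤ (1 + M) ^ (-s + 1) := Real.rpow_nonneg (by linarith) _
    have h4 : -s + 1 = 1 - s := by ring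
    rw [h4] at h3 ⊢
    have h5 : ((1 + M) ^ (1 - s) - (1 + N) ^ (1 - s)) / (1 - s)
        = ((1 + N) ^ (1 - s) - (1 + M) ^ (1 - s)) / (s - 1) := by
      rw [← neg_sub, ← neg_sub s 1, neg_div_neg_eq]
    rw [h5]
    apply div_le_div_of_nonneg_right _ (by linarith)
    linarith
  · right
    constructor
    · linarith
    · rw [uIcc_of_le (by linarith)]
      rintro ⟨h, _⟩
      linarith

theorem thm : G_V1 → G_LOW := by
  intro hV k d hk hkd
  obtain ⟨C, hC⟩ := hV k hk
  have hC0 : 0 ≤ C := by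
    have := (norm_nonneg _).trans (hC 0 0)
    simpa using this
  set s : ℝ := (d : ℝ) / k with hs
  have hk0 : (0 : ℝ) < k := by positivity
  have hs1 : 1 < s := by
    rw [hs, lt_div_iff₀ hk0, one_mul]
    exact_mod_cast hkd
  refine ⟨2 * (C ^ d / (s - 1)), ?_⟩
  intro N M hN
  have hpt : ∀ B : ℝ, ‖VV k B 0‖ ^ d ≤ C ^ d * (1 + |B|) ^ (-s) := by
    intro B
    have h0 : (0 : ℝ) ≤ 1 + |B| := by positivity
    calc ‖VV k B 0‖ ^ d ≤ (C * (1 + |B|) ^ (-(1 / (k : ℝ)))) ^ d :=
          pow_le_pow_left₀ (norm_nonneg _) (hC B 0) d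
      _ = C ^ d * (1 + |B|) ^ (-s) := by
          rw [mul_pow, ← Real.rpow_natCast ((1 + |B|) ^ (-(1 / (k : ℝ)))) d, ← Real.rpow_mul h0]
          congr 2
          rw [hs]
          field_simp
  rcases lt_or_ge M N with hMN | hNM
  · have hempty : {B : ℝ | N < |B| ∧ |B| ≤ M} = ∅ := by
      ext B
      simp only [mem_setOf_eq, mem_empty_iff_false, iff_false]
      rintro ⟨h1, h2⟩
      linarith
    rw [hempty]
    simp only [Measure.restrict_empty, integral_zero_measure]
    have : (0 : ℝ) ≤ (1 + N) ^ (1 - (d : ℝ) / k) := Real.rpow_nonneg (by linarith) _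
    have h2 : 0 ≤ C ^ d / (s - 1) := div_nonneg (pow_nonneg hC0 _) (by linarith)
    positivity
  have hset : {B : ℝ | N < |B| ∧ |B| ≤ M} = Ioc N M ∪ Ico (-M) (-N) := by
    ext B
    simp only [mem_setOf_eq, mem_union, mem_Ioc, mem_Ico]
    constructor
    · rintro ⟨h1, h2⟩
      rcases le_total 0 B with hB | hB
      · rw [abs_of_nonneg hB] at h1 h2
        exact Or.inl ⟨h1, h2⟩
      · rw [abs_of_nonpos hB] at h1 h2
        exact Or.inr ⟨by linarith, by linarith⟩
    · rintro (⟨h1, h2⟩ | ⟨h1, h2⟩)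
      · rw [abs_of_nonneg (by linarith)]
        exact ⟨h1, h2⟩
      · rw [abs_of_nonpos (by linarith)]
        exact ⟨by linarith, by linarith⟩
  have hcont : Continuous fun B : ℝ => C ^ d * (1 + |B|) ^ (-s) := by
    apply continuous_const.mul
    apply Continuous.rpow_const
    · fun_prop
    · intro x
      left
      have := abs_nonneg x
      linarith
  have hint : ∀ a b : ℝ, IntegrableOn (fun B : ℝ => C ^ d * (1 + |B|) ^ (-s)) (Icc a b) :=
    fun a b => hcont.integrableOn_Icc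
  have hi1 : IntegrableOn (fun B : ℝ => C ^ d * (1 + |B|) ^ (-s)) (Ioc N M) :=
    (hint N M).mono_set Ioc_subset_Icc_self
  have hi2 : IntegrableOn (fun B : ℝ => C ^ d * (1 + |B|) ^ (-s)) (Ico (-M) (-N)) :=
    (hint (-M) (-N)).mono_set Ico_subset_Icc_self
  rw [hset]
  calc ∫ B in Ioc N M ∪ Ico (-M) (-N), ‖VV k B 0‖ ^ d
      ≤ ∫ B in Ioc N M ∪ Ico (-M) (-N), C ^ d * (1 + |B|) ^ (-s) := by
        apply integral_mono_of_nonneg
        · exact Filter.Eventually.of_forall fun B => by positivity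
        · exact hi1.union hi2
        · exact Filter.Eventually.of_forall hpt
    _ = (∫ B in Ioc N M, C ^ d * (1 + |B|) ^ (-s)) +
        ∫ B in Ico (-M) (-N), C ^ d * (1 + |B|) ^ (-s) := by
        apply setIntegral_union _ measurableSet_Ico hi1 hi2
        rw [Set.disjoint_left]
        rintro x ⟨h1, _⟩ ⟨_, h2⟩
        linarith
    _ = (∫ B in Ioc N M, C ^ d * (1 + |B|) ^ (-s)) +
        ∫ B in Ioc N M, C ^ d * (1 + |B|) ^ (-s) := by
        congr 1
        rw [integral_Ico_eq_integral_Ioo, ← integral_Ioc_eq_integral_Ioo,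
          ← intervalIntegral.integral_of_le hNM, ← intervalIntegral.integral_of_le (by linarith)]
        have := intervalIntegral.integral_comp_neg (a := N) (b := M)
          (fun B : ℝ => C ^ d * (1 + |B|) ^ (-s))
        rw [← this]
        simp only [abs_neg]
    _ ≤ C ^ d * ((1 + N) ^ (1 - s) / (s - 1)) + C ^ d * ((1 + N) ^ (1 - s) / (s - 1)) :=
        add_le_add (aux _ _ _ _ (pow_nonneg hC0 _) hs1 hN hNM)
          (aux _ _ _ _ (pow_nonneg hC0 _) hs1 hN hNM)
    _ = 2 * (C ^ d / (s - 1)) * (1 + N) ^ (1 - s) := by ring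

end Pool.Agent.Helper42.KS.PkLOW

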